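import Pool.Agent.helper42.CQ.SpecC

set_option autoImplicit false

namespace Pool.Agent.helper42.CQ

open Finset Pool.Agent.helper24.CG

theorem NT1 : NT1_stmt := by
  classical
  intro N m M K H z h T hH hM hz hh hT
  rcases T.eq_empty_or_nonempty with rfl | hne
  · simp
  choose! H₂ H₁ hdec hcmp he he' using hT
  obtain ⟨E0, hE0, hmax⟩ := T.exists_max_image (fun E => (H₁ E).length) hne
  have hmem : ∀ E ∈ T, E ≠ E0 → E ∈ H₁ E0 := by
    intro E hE hEE
    have s1 : (E :: H₁ E) <:+ H := ⟨H₂ E, (hdec E hE).symm⟩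
    have s2 : (E0 :: H₁ E0) <:+ H := ⟨H₂ E0, (hdec E0 hE0).symm⟩
    have hl : (E :: H₁ E).length ≤ (E0 :: H₁ E0).length := by
      have := hmax E hE
      simp only [List.length_cons]
      omega
    have s3 : (E :: H₁ E) <:+ (E0 :: H₁ E0) := List.suffix_of_suffix_length_le s1 s2 hl
    rcases List.suffix_cons_iff.mp s3 with h1 | h1
    · exact absurd (List.cons.inj h1).1 hEE
    · exact h1.subset List.mem_cons_self
  have htv : tv K (H₁ E0) z h < M := by
    by_contra hc
    push Not at hc
    apply hcmp E0 hE0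
    unfold cmp
    rw [Finset.mem_filter]
    exact ⟨hh, Relation.ReflTransGen.single ⟨hz, hh, hc⟩⟩
  have hTH : ∀ E ∈ T, E ∈ H := by
    intro E hE
    rw [hdec E hE]
    simp
  have hB : (T.filter fun E => ({z, h} : Finset (Fin N)) ∈ E).card ≤ 1 := by
    rw [Finset.card_le_one]
    intro E hE E' hE'
    rw [Finset.mem_filter] at hE hE'
    by_contra hne'
    have hd : Disjoint E E' :=
      List.Pairwise.forall hH.disj (hTH E hE.1) (hTH E' hE'.1) hne'
    exact (Finset.disjoint_left.mp hd) hE.2 hE'.2
  have h1 : ((T.erase E0) \ (T.filter fun E => ({z, h} : Finset (Fin N)) ∈ E)).card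
      ≤ tv K (H₁ E0) z h := by
    unfold tv
    apply Finset.card_le_card
    intro E hE
    rw [Finset.mem_sdiff, Finset.mem_erase] at hE
    obtain ⟨⟨hEne, hET⟩, hEB⟩ := hE
    rw [Finset.mem_filter, List.mem_toFinset]
    obtain ⟨e', he'E, he'K, hhe', hze'⟩ := he' E hET
    refine ⟨hmem E hET hEne, ?_, ⟨e', he'E, he'K, hhe', hze'⟩⟩
    obtain ⟨e, heE, heK, hze⟩ := he E hET
    refine ⟨e, heE, heK, hze, fun hhe => hEB ?_⟩
    rw [Finset.mem_filter]
    refine ⟨hET, ?_⟩
    have hzh : z ≠ h := by
      rintro rfl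
      exact hze' hhe'
    have hcard : e.card = 2 := (Finset.mem_powersetCard.mp heK).2
    have hsub : ({z, h} : Finset (Fin N)) ⊆ e := by
      intro x hx
      rw [Finset.mem_insert, Finset.mem_singleton] at hx
      rcases hx with rfl | rfl
      · exact hze
      · exact hhe
    have heq : ({z, h} : Finset (Fin N)) = e := by
      apply Finset.eq_of_subset_of_card_le hsub
      rw [hcard, Finset.card_pair hzh]
    rw [heq]
    exact heE
  have h2 : T.card ≤ ((T.erase E0) \ (T.filter fun E => ({z, h} : Finset (Fin N)) ∈ E)).card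
      + (T.filter fun E => ({z, h} : Finset (Fin N)) ∈ E).card + 1 := by
    have h3 : T.card = (T.erase E0).card + 1 := (Finset.card_erase_add_one hE0).symm
    have h4 : (T.erase E0).card ≤ ((T.erase E0) \ (T.filter fun E => ({z, h} : Finset (Fin N)) ∈ E)).card
        + (T.filter fun E => ({z, h} : Finset (Fin N)) ∈ E).card := by
      calc (T.erase E0).card ≤ (((T.erase E0) \ (T.filter fun E => ({z, h} : Finset (Fin N)) ∈ E))
            ∪ (T.filter fun E => ({z, h} : Finset (Fin N)) ∈ E)).card := by
            apply Finset.card_le_card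
            intro x hx
            by_cases hxB : x ∈ (T.filter fun E => ({z, h} : Finset (Fin N)) ∈ E)
            · exact Finset.mem_union_right _ hxB
            · exact Finset.mem_union_left _ (Finset.mem_sdiff.mpr ⟨hx, hxB⟩)
        _ ≤ _ := Finset.card_union_le _ _
    omega
  omega

end Pool.Agent.helper42.CQ
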